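import Pool.Agent.TH193.RS.Main2

/-!
# Power products of random integers: the local analysis

The integers `n_i` are arbitrary. `pw n α = ∏ n_i ^ α_i`.
-/

set_option autoImplicit false

namespace Pool.Agent.Q16.RI

open Finset Pool.Agent.TH193.RS

/-- all prime divisors of `c` are at most `K` -/
def Sm (K c : ℕ) : Prop := ∀ r : ℕ, r.Prime → r ∣ c → r ≤ K

/-- power products -/
def pw {k : ℕ} (n α : Fin k → ℕ) : ℕ := ∏ i, n i ^ α i

/-- no sum and no difference of two power products of disjoint families, not all of whose exponents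
are divisible by `m`, is an `m`-th power times a `K`-smooth number -/
def Good3 {k : ℕ} (K m : ℕ) (n : Fin k → ℕ) : Prop :=
  ∀ (α β : Fin k → ℕ) (c C : ℕ), (∀ i, α i = 0 ∨ β i = 0) → (∃ i, ¬ m ∣ α i ∨ ¬ m ∣ β i) →
    0 < c → Sm K c → 0 < C → ¬ (pw n α = pw n β + c * C ^ m) ∧ ¬ (pw n α + pw n β = c * C ^ m)

theorem pw_pos {k : ℕ} {n : Fin k → ℕ} (hn : ∀ i, 0 < n i) (α : Fin k → ℕ) : 0 < pw n α :=
  Finset.prod_pos fun i _ => pow_pos (hn i) _

theorem pw_div {k m : ℕ} (n α : Fin k → ℕ) (h : ∀ i, m ∣ α i) :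
    pw n α = pw n (fun i => α i / m) ^ m := by
  unfold pw
  rw [← Finset.prod_pow]
  apply Finset.prod_congr rfl
  intro i _
  rw [← pow_mul, Nat.div_mul_cancel (h i)]

theorem exists_pos_of_one_lt {k : ℕ} {n α β : Fin k → ℕ} (h : 1 < pw n α * pw n β) :
    ∃ i, 0 < α i + β i := by
  by_contra hcon
  push Not at hcon
  have h1 : pw n α = 1 := by
    unfold pw
    apply Finset.prod_eq_one
    intro i _
    have := hcon i
    rw [show α i = 0 by omega, pow_zero]
  have h2 : pw n β = 1 := by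
    unfold pw
    apply Finset.prod_eq_one
    intro i _
    have := hcon i
    rw [show β i = 0 by omega, pow_zero]
  rw [h1, h2] at h
  omega

/-- The descent. -/
theorem descent3 {k K m : ℕ} (hm : m.Prime) (hmK : m ≤ K) (n : Fin k → ℕ) (hn : ∀ i, 0 < n i)
    (hG : Good3 K m n) : ∀ (N : ℕ) (α β : Fin k → ℕ) (c C : ℕ), ∑ i, (α i + β i) = N →
      (∀ i, α i = 0 ∨ β i = 0) → (pw n α).Coprime (pw n β) → 1 < pw n α * pw n β →
      0 < c → Sm K c → 0 < C →
      ¬ (pw n α = pw n β + c * C ^ m) ∧ (Odd m → ¬ (pw n α + pw n β = c * C ^ m)) := by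
  intro N
  induction N using Nat.strong_induction_on with
  | _ N ih =>
    intro α β c C hN hd hab h1 hc hsc hC
    by_cases hdiv : ∃ i, ¬ m ∣ α i ∨ ¬ m ∣ β i
    · have := hG α β c C hd hdiv hc hsc hC
      exact ⟨this.1, fun _ => this.2⟩
    push Not at hdiv
    have hA := pw_div n α (fun i => (hdiv i).1)
    have hB := pw_div n β (fun i => (hdiv i).2)
    set α' : Fin k → ℕ := fun i => α i / m with hα'
    set β' : Fin k → ℕ := fun i => β i / m with hβ'
    have hm2 := hm.two_le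
    have hA0 : 0 < pw n α' := pw_pos hn _
    have hB0 : 0 < pw n β' := pw_pos hn _
    have hcop : (pw n α').Coprime (pw n β') := by
      rw [hA, hB] at hab
      exact (Nat.coprime_pow_left_iff hm.pos _ _).1 ((Nat.coprime_pow_right_iff hm.pos _ _).1 hab)
    have hAB : 1 < pw n α' * pw n β' := by
      by_contra hcon
      have h2 : pw n α' * pw n β' = 1 := by
        have : 0 < pw n α' * pw n β' := Nat.mul_pos hA0 hB0
        omega
      have h3 : pw n α * pw n β = 1 := by rw [hA, hB, ← mul_pow, h2, one_pow]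
      omega
    have hd' : ∀ i, α' i = 0 ∨ β' i = 0 := by
      intro i
      rcases hd i with h | h
      · left; rw [hα']; simp [h]
      · right; rw [hβ']; simp [h]
    have hlt : ∑ i, (α' i + β' i) < N := by
      rw [← hN]
      obtain ⟨i, hi⟩ := exists_pos_of_one_lt h1
      apply Finset.sum_lt_sum
      · intro j _
        exact Nat.add_le_add (Nat.div_le_self _ _) (Nat.div_le_self _ _)
      · refine ⟨i, Finset.mem_univ i, ?_⟩
        rcases Nat.eq_zero_or_pos (α i) with h | h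
        · have hb : 0 < β i := by omega
          have h2 : β i / m < β i := Nat.div_lt_self hb (by omega)
          have h3 : α i / m ≤ α i := Nat.div_le_self _ _
          show α i / m + β i / m < α i + β i
          omega
        · have h2 : α i / m < α i := Nat.div_lt_self h (by omega)
          have h3 : β i / m ≤ β i := Nat.div_le_self _ _
          show α i / m + β i / m < α i + β i
          omega
    constructor
    · intro heq
      have hpow : pw n β' ^ m < pw n α' ^ m := by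
        rw [← hA, ← hB, heq]
        have : 0 < c * C ^ m := Nat.mul_pos hc (pow_pos hC m)
        omega
      have hBA : pw n β' < pw n α' := lt_of_pow_lt_pow_left₀ m (Nat.zero_le _) hpow
      have hD : pw n α' - pw n β' ≠ 0 := by omega
      obtain ⟨c', C', hc', hC', he, hs'⟩ : ∃ c' C' : ℕ, 0 < c' ∧ 0 < C' ∧
          pw n α' - pw n β' = c' * C' ^ m ∧ ∀ r : ℕ, r.Prime → r ∣ c' → r ≤ K := by
        apply split hD
        intro r hr hrD hbad
        have hrc : ¬ r ∣ c := fun h => hbad (hsc r hr h)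
        have hrm : r ≠ m := by
          intro h
          exact hbad (by omega)
        refine dvd_fact hm ((pw n α' : ℕ) : ℤ) ((pw n β' : ℕ) : ℤ)
          (Nat.isCoprime_iff_coprime.2 hcop) hr hrm hD
          (by omega) (by omega : C ≠ 0) (by push_cast [Nat.cast_sub hBA.le]; ring) ?_ hrD hrc
        rw [hA, hB] at heq
        have : ((pw n α' : ℕ) : ℤ) ^ m = ((pw n β' : ℕ) : ℤ) ^ m + ((c * C ^ m : ℕ) : ℤ) := by
          exact_mod_cast heq
        rw [this]; ring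
      exact (ih _ hlt α' β' c' C' rfl hd' hcop hAB hc' hs' hC').1 (by omega)
    · intro hodd heq
      have hD : pw n α' + pw n β' ≠ 0 := by omega
      obtain ⟨c', C', hc', hC', he, hs'⟩ : ∃ c' C' : ℕ, 0 < c' ∧ 0 < C' ∧
          pw n α' + pw n β' = c' * C' ^ m ∧ ∀ r : ℕ, r.Prime → r ∣ c' → r ≤ K := by
        apply split hD
        intro r hr hrD hbad
        have hrc : ¬ r ∣ c := fun h => hbad (hsc r hr h)
        have hrm : r ≠ m := by
          intro h
          exact hbad (by omega)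
        refine dvd_fact hm ((pw n α' : ℕ) : ℤ) (-((pw n β' : ℕ) : ℤ)) ?_ hr hrm hD
          (by omega) (by omega : C ≠ 0) (by push_cast; ring) ?_ hrD hrc
        · exact (Nat.isCoprime_iff_coprime.2 hcop).neg_right
        · rw [hA, hB] at heq
          have : ((pw n α' : ℕ) : ℤ) ^ m + ((pw n β' : ℕ) : ℤ) ^ m = ((c * C ^ m : ℕ) : ℤ) := by
            exact_mod_cast heq
          rw [hodd.neg_pow, ← this]; ring
      exact (ih _ hlt α' β' c' C' rfl hd' hcop hAB hc' hs' hC').2 hodd he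

open Classical in
/-- the residue vectors modulo `ℓ` allowed by the equation, including those with an entry `0` -/
noncomputable def P3 {k : ℕ} (m : ℕ) (α β : Fin k → ℕ) (s : ℤ) (c : ℕ) (ℓ : ℕ) :
    Finset (Fin k → ℕ) :=
  (Fintype.piFinset (fun _ : Fin k => range ℓ)).filter
    (fun v => (∃ i, v i = 0) ∨ v ∈ Pz m α β (0 : Fin k → ℕ) s c ℓ)

theorem P3_card {k m : ℕ} (hm : m.Prime) (α β : Fin k → ℕ) (s : ℤ) (hs : s = 1 ∨ s = -1) (c : ℕ)
    (ℓ : ℕ) (hℓ : ℓ.Prime) (hd : m ^ 3 ∣ ℓ - 1) (i₀ : Fin k) (h0 : α i₀ = 0 ∨ β i₀ = 0)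
    (hi : ¬ m ∣ α i₀ ∨ ¬ m ∣ β i₀) (hc : ¬ ℓ ∣ c) (hk : 16 * k ≤ ℓ) :
    ((P3 m α β s c ℓ).card : ℝ) ≤ 7 / 8 * (ℓ : ℝ) ^ k := by
  classical
  have h1 := Pz_card hm α β 0 s hs c ℓ hℓ hd i₀ h0 hi rfl hc
  have hl2 : (2 : ℝ) ≤ ℓ := by exact_mod_cast hℓ.two_le
  -- the vectors without an entry `0`
  set U : Finset (Fin k → ℕ) := Fintype.piFinset (fun _ : Fin k => (range ℓ).filter (fun v => v ≠ 0))
    with hU
  have hUcard : U.card = (ℓ - 1) ^ k := by
    rw [hU, Fintype.card_piFinset]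
    have : ((range ℓ).filter (fun v => v ≠ 0)).card = ℓ - 1 := by
      have e : (range ℓ).filter (fun v => v ≠ 0) = Icc 1 (ℓ - 1) := by
        ext v
        rw [mem_filter, mem_range, mem_Icc]
        have := hℓ.pos
        omega
      rw [e]; simp
    rw [this]; simp
  set W : Finset (Fin k → ℕ) := Fintype.piFinset (fun _ : Fin k => range ℓ) with hW
  have hWcard : W.card = ℓ ^ k := by
    rw [hW, Fintype.card_piFinset]; simp
  have hUW : U ⊆ W := by
    apply Fintype.piFinset_subset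
    intro i
    exact Finset.filter_subset _ _
  have hsub : P3 m α β s c ℓ ⊆ (W \ U) ∪ Pz m α β 0 s c ℓ := by
    intro v hv
    unfold P3 at hv
    rw [mem_filter] at hv
    rw [mem_union]
    rcases hv.2 with ⟨i, hi⟩ | h
    · left
      rw [mem_sdiff]
      refine ⟨hv.1, fun hcon => ?_⟩
      rw [hU, Fintype.mem_piFinset] at hcon
      exact (mem_filter.1 (hcon i)).2 hi
    · right; exact h
  have h2 : ((P3 m α β s c ℓ).card : ℝ) ≤ ((ℓ : ℝ) ^ k - ((ℓ : ℝ) - 1) ^ k) +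
      13 / 16 * ((ℓ : ℝ) - 1) ^ k := by
    have e1 := (Finset.card_le_card hsub).trans (Finset.card_union_le _ _)
    have e2 : (W \ U).card = ℓ ^ k - (ℓ - 1) ^ k := by
      rw [Finset.card_sdiff_of_subset hUW, hWcard, hUcard]
    have e3 : (((W \ U).card : ℕ) : ℝ) = (ℓ : ℝ) ^ k - ((ℓ : ℝ) - 1) ^ k := by
      rw [e2, Nat.cast_sub (Nat.pow_le_pow_left (Nat.sub_le ℓ 1) k)]
      push_cast [Nat.cast_sub hℓ.one_lt.le]
      ring
    have e4 : ((P3 m α β s c ℓ).card : ℝ) ≤ (((W \ U).card : ℕ) : ℝ) + ((Pz m α β 0 s c ℓ).card : ℝ) := by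
      exact_mod_cast e1
    rw [e3] at e4
    linarith
  -- Bernoulli
  have h3 : (15 / 16 : ℝ) * (ℓ : ℝ) ^ k ≤ ((ℓ : ℝ) - 1) ^ k := by
    have hl0 : (0 : ℝ) < ℓ := by linarith
    have e1 : (1 : ℝ) + k * (-(1 / ℓ)) ≤ (1 + (-(1 / (ℓ : ℝ)))) ^ k := by
      apply one_add_mul_le_pow
      have : 1 / (ℓ : ℝ) ≤ 1 := by rw [div_le_one hl0]; linarith
      linarith
    have e2 : (k : ℝ) * (1 / ℓ) ≤ 1 / 16 := by
      rw [mul_one_div, div_le_iff₀ hl0]
      have : (16 : ℝ) * k ≤ ℓ := by exact_mod_cast hk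
      linarith
    have e3 : (15 / 16 : ℝ) ≤ (1 + (-(1 / (ℓ : ℝ)))) ^ k := by linarith
    have e4 : ((ℓ : ℝ) - 1) ^ k = (1 + (-(1 / (ℓ : ℝ)))) ^ k * (ℓ : ℝ) ^ k := by
      rw [← mul_pow]
      congr 1
      field_simp
      ring
    rw [e4]
    exact mul_le_mul_of_nonneg_right e3 (by positivity)
  have h4 : (0 : ℝ) ≤ (ℓ : ℝ) ^ k := by positivity
  nlinarith

theorem residues3 {k K m L : ℕ} (hm : m.Prime) (hK : 1 ≤ K) (hmL : m ∣ L) (hL : 0 < L)
    (T : Finset ℕ) (hT : ∀ ℓ ∈ T, ℓ.Prime ∧ ℓ - 1 ∣ L) (n : Fin k → ℕ)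
    (hG : ¬ Good3 K m n) :
    ∃ x ∈ Params k K m L, ∀ ℓ ∈ T, (fun i => n i % ℓ) ∈ P3 m x.1.1 x.1.2.1 x.2.1 x.2.2 ℓ := by
  classical
  have hG' : ∃ (α β : Fin k → ℕ) (c C : ℕ), (∀ i, α i = 0 ∨ β i = 0) ∧
      (∃ i, ¬ m ∣ α i ∨ ¬ m ∣ β i) ∧ 0 < c ∧ Sm K c ∧ 0 < C ∧
      (pw n α = pw n β + c * C ^ m ∨ pw n α + pw n β = c * C ^ m) := by
    by_contra hcon
    apply hG
    intro α β c C h1 h2 h3 h4 h5
    exact ⟨fun h => hcon ⟨α, β, c, C, h1, h2, h3, h4, h5, Or.inl h⟩,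
      fun h => hcon ⟨α, β, c, C, h1, h2, h3, h4, h5, Or.inr h⟩⟩
  obtain ⟨α, β, c, C, hdis, ⟨i₀, hi₀⟩, hc, hsc, hC, heq⟩ := hG'
  obtain ⟨c', d, hed, hc'0, hc'B, hc's⟩ := smooth_red hK hm.pos hc hsc
  obtain ⟨s, hs, hs1, heqs⟩ : ∃ s : ℤ, (s = 1 ∨ s = -1) ∧ s ∈ ({1, -1} : Finset ℤ) ∧
      ((pw n α : ℕ) : ℤ) + s * (pw n β : ℕ) = ((c * C ^ m : ℕ) : ℤ) := by
    rcases heq with h | h
    · refine ⟨-1, Or.inr rfl, by simp, ?_⟩
      have : ((pw n α : ℕ) : ℤ) = (pw n β : ℕ) + ((c * C ^ m : ℕ) : ℤ) := by exact_mod_cast h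
      rw [this]; ring
    · refine ⟨1, Or.inl rfl, by simp, ?_⟩
      have : ((pw n α : ℕ) : ℤ) + (pw n β : ℕ) = ((c * C ^ m : ℕ) : ℤ) := by exact_mod_cast h
      rw [← this]; ring
  have hmodm : ∀ n : ℕ, m ∣ n % L ↔ m ∣ n := fun n => Nat.dvd_mod_iff hmL
  refine ⟨((fun i => α i % L, fun i => β i % L, fun _ => 0), s, c'), ?_, ?_⟩
  · rw [Params, mem_filter]
    refine ⟨?_, ⟨i₀, ?_, ?_, rfl⟩, hc's⟩
    · rw [mem_product, mem_product, mem_product, mem_product, mem_Icc, Fintype.mem_piFinset,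
        Fintype.mem_piFinset, Fintype.mem_piFinset]
      exact ⟨⟨fun i => mem_range.2 (Nat.mod_lt _ hL), fun i => mem_range.2 (Nat.mod_lt _ hL),
        fun i => mem_range.2 hL⟩, hs1, hc'0, hc'B⟩
    · rcases hdis i₀ with h | h
      · left; simp [h]
      · right; simp [h]
    · rcases hi₀ with h | h
      · left; exact fun h' => h ((hmodm _).1 h')
      · right; exact fun h' => h ((hmodm _).1 h')
  · intro ℓ hℓ
    obtain ⟨hℓp, hℓL⟩ := hT ℓ hℓ
    have : Fact ℓ.Prime := ⟨hℓp⟩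
    unfold P3
    rw [mem_filter]
    refine ⟨Fintype.mem_piFinset.2 fun i => mem_range.2 (Nat.mod_lt _ hℓp.pos), ?_⟩
    by_cases hz : ∃ i, n i % ℓ = 0
    · exact Or.inl hz
    right
    push Not at hz
    have hpl : ∀ i, ¬ ℓ ∣ n i := fun i h => hz i (Nat.mod_eq_zero_of_dvd h)
    have hpz : ∀ i, ((n i : ℕ) : ZMod ℓ) ≠ 0 := by
      intro i h
      exact hpl i ((ZMod.natCast_eq_zero_iff (n i) ℓ).1 h)
    have hcast : ∀ i, ((n i % ℓ : ℕ) : ZMod ℓ) = (n i : ZMod ℓ) := fun i => ZMod.natCast_mod (n i) ℓ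
    rw [mem_Pz]
    refine ⟨?_, ?_⟩
    · intro i
      refine ⟨Nat.mod_lt _ hℓp.pos, ?_⟩
      rw [Nat.coprime_comm, Nat.Prime.coprime_iff_not_dvd hℓp]
      intro h
      exact hpl i ((Nat.dvd_mod_iff (dvd_refl ℓ)).1 h)
    · refine ⟨((d * C : ℕ) : ZMod ℓ), ?_⟩
      have hred : ∀ e : Fin k → ℕ, ∏ i, ((n i % ℓ : ℕ) : ZMod ℓ) ^ (e i % L) =
          ((pw n e : ℕ) : ZMod ℓ) := by
        intro e
        unfold pw
        push_cast
        apply Finset.prod_congr rfl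
        intro i _
        rw [hcast, ← pow_mod_L hℓp hℓL _ (hpz i)]
      simp only [hred]
      have h1 : (((pw n α : ℕ) : ℤ) : ZMod ℓ) + (s : ZMod ℓ) * (((pw n β : ℕ) : ℤ) : ZMod ℓ) =
          (((c * C ^ m : ℕ) : ℤ) : ZMod ℓ) := by
        rw [← heqs]; push_cast; ring
      push_cast at h1
      rw [h1, hed]
      simp only [Pi.zero_apply, pow_zero, Finset.prod_const_one, mul_one]
      push_cast
      ring

end Pool.Agent.Q16.RI
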