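import Pool.Agent.Q16.RI.Basic

/-!
# Power products of random integers: counting
-/

set_option autoImplicit false

namespace Pool.Agent.Q16.RI

open Finset Pool.Agent.TH193.RS

/-- integers of an interval in a residue class -/
theorem class_count3 (T : Finset ℕ) (hT : ∀ ℓ ∈ T, ℓ.Prime) (b N : ℕ) (hQ : ∏ ℓ ∈ T, ℓ ≤ N)
    (c : ℕ → ℕ) :
    (((Ioc b (b + N)).filter (fun n : ℕ => ∀ ℓ ∈ T, n % ℓ = c ℓ % ℓ)).card : ℝ) ≤
      2 * (N : ℝ) / ∏ ℓ ∈ T, (ℓ : ℝ) := by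
  classical
  set M : ℕ := ∏ ℓ ∈ T, ℓ with hM
  have hM0 : 0 < M := Finset.prod_pos fun ℓ hℓ => (hT ℓ hℓ).pos
  have hMR : (1 : ℝ) ≤ M := by exact_mod_cast hM0
  have hMN : (M : ℝ) ≤ N := by exact_mod_cast hQ
  have hcast : ∏ ℓ ∈ T, (ℓ : ℝ) = (M : ℝ) := by rw [hM]; push_cast; rfl
  rw [hcast]
  obtain ⟨u, hu⟩ := Nat.chineseRemainderOfFinset c id T (fun ℓ hℓ => (hT ℓ hℓ).ne_zero) (by
    intro a ha b hb hab
    exact (Nat.coprime_primes (hT a ha) (hT b hb)).2 hab)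
  have hsub : (Ioc b (b + N)).filter (fun n : ℕ => ∀ ℓ ∈ T, n % ℓ = c ℓ % ℓ) ⊆
      (Ioc b (b + N)).filter (fun n : ℕ => n ≡ u [MOD M]) := by
    intro p hp
    rw [mem_filter] at hp ⊢
    refine ⟨hp.1, ?_⟩
    rw [hM]
    have h4 : ∀ ℓ ∈ T, p ≡ u [MOD ℓ] := by
      intro ℓ hℓ
      have e1 : p ≡ c ℓ [MOD ℓ] := hp.2 ℓ hℓ
      exact e1.trans (hu ℓ hℓ).symm
    rw [Nat.modEq_iff_dvd]
    have h5 : ((∏ ℓ ∈ T, ℓ : ℕ) : ℤ) = ∏ ℓ ∈ T, (ℓ : ℤ) := by push_cast; rfl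
    rw [h5]
    apply Finset.prod_dvd_of_coprime
    · intro a ha b hb hab
      exact Nat.isCoprime_iff_coprime.2 ((Nat.coprime_primes (hT a ha) (hT b hb)).2 hab)
    · intro ℓ hℓ
      exact (Nat.modEq_iff_dvd.1 (h4 ℓ hℓ))
  have h1 := Finset.card_le_card hsub
  have h2 : (((Ioc b (b + N)).filter (fun n : ℕ => n ≡ u [MOD M])).card : ℝ) ≤ 2 * (N : ℝ) / M := by
    have h3 := Nat.Ioc_filter_modEq_card b (b + N) hM0 u
    have key : ∀ p q : ℚ, q = p + (N : ℚ) / M → ⌊q⌋ - ⌊p⌋ ≤ ((N / M : ℕ) : ℤ) + 1 := by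
      intro p q hpq
      have f1 : ((⌊q⌋ : ℤ) : ℚ) ≤ q := Int.floor_le _
      have f2 : p < ((⌊p⌋ : ℤ) : ℚ) + 1 := Int.lt_floor_add_one _
      have hMQ : (0 : ℚ) < M := by exact_mod_cast hM0
      have f3 : ((N : ℚ) / M) < ((N / M : ℕ) : ℚ) + 1 := by
        rw [div_lt_iff₀ hMQ]
        have : N < (N / M + 1) * M := by
          have := Nat.lt_div_mul_add (a := N) (b := M) hM0
          rw [Nat.add_mul, one_mul]
          exact this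
        exact_mod_cast this
      have f5 : ((⌊q⌋ : ℤ) : ℚ) - ((⌊p⌋ : ℤ) : ℚ) < ((N / M : ℕ) : ℚ) + 2 := by linarith
      have f7 : ((⌊q⌋ - ⌊p⌋ : ℤ) : ℚ) < ((((N / M : ℕ) : ℤ) + 2 : ℤ) : ℚ) := by
        rw [Int.cast_sub, Int.cast_add, Int.cast_natCast]
        exact f5
      have f6 : ⌊q⌋ - ⌊p⌋ < ((N / M : ℕ) : ℤ) + 2 := Int.cast_lt.1 f7
      omega
    have h4 : (((Ioc b (b + N)).filter (fun n : ℕ => n ≡ u [MOD M])).card : ℤ) ≤
        ((N / M : ℕ) : ℤ) + 1 := by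
      rw [h3]
      apply max_le _ (by positivity)
      apply key
      push_cast
      ring
    have h5 : (((Ioc b (b + N)).filter (fun n : ℕ => n ≡ u [MOD M])).card : ℝ) ≤
        ((N / M : ℕ) : ℝ) + 1 := by exact_mod_cast h4
    have e1 : ((N / M : ℕ) : ℝ) ≤ N / M := Nat.cast_div_le
    have e2 : (1 : ℝ) ≤ N / M := by
      rw [le_div_iff₀ (by linarith), one_mul]; exact hMN
    have e3 : 2 * (N : ℝ) / M = N / M + N / M := by ring
    rw [e3]; linarith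
  exact le_trans (by exact_mod_cast h1) h2

/-- the box -/
def Box {k : ℕ} (b N : Fin k → ℕ) : Finset (Fin k → ℕ) :=
  Fintype.piFinset (fun i => Ioc (b i) (b i + N i))

open Classical in
/-- the number of tuples of integers in a product set of residue classes -/
theorem tuple_count3 (k : ℕ) (T : Finset ℕ) (hT : ∀ ℓ ∈ T, ℓ.Prime)
    (b N : Fin k → ℕ) (hN : ∀ i, ∏ ℓ ∈ T, ℓ ≤ N i)
    (P : ℕ → Finset (Fin k → ℕ)) (θ : ℝ)
    (hcard : ∀ ℓ ∈ T, ((P ℓ).card : ℝ) ≤ θ * (ℓ : ℝ) ^ k) :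
      (((Box b N).filter (fun p => ∀ ℓ ∈ T, (fun i => p i % ℓ) ∈ P ℓ)).card : ℝ) ≤
        2 ^ k * θ ^ T.card * ∏ i, (N i : ℝ) := by
  set cf : (∀ ℓ ∈ T, Fin k → ℕ) → Fin k → ℕ → ℕ := fun f i ℓ => if h : ℓ ∈ T then f ℓ h i else 1
    with hcf
  set F : (∀ ℓ ∈ T, Fin k → ℕ) → Finset (Fin k → ℕ) := fun f =>
    Fintype.piFinset (fun i => (Ioc (b i) (b i + N i)).filter
      (fun p : ℕ => ∀ ℓ ∈ T, p % ℓ = cf f i ℓ % ℓ)) with hF
  have hsub : ((Box b N).filter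
        (fun p => ∀ ℓ ∈ T, (fun i => p i % ℓ) ∈ P ℓ)) ⊆ (T.pi P).biUnion F := by
    intro p hp
    rw [mem_filter, Box, Fintype.mem_piFinset] at hp
    rw [mem_biUnion]
    refine ⟨fun ℓ _ i => p i % ℓ, ?_, ?_⟩
    · rw [Finset.mem_pi]
      intro ℓ hℓ
      exact hp.2 ℓ hℓ
    · rw [hF, Fintype.mem_piFinset]
      intro i
      rw [mem_filter]
      refine ⟨hp.1 i, fun ℓ hℓ => ?_⟩
      simp only [hcf, hℓ, dif_pos, Nat.mod_mod]
  have hprod0 : 0 < ∏ ℓ ∈ T, (ℓ : ℝ) := by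
    apply Finset.prod_pos
    intro ℓ hℓ
    exact_mod_cast (hT ℓ hℓ).pos
  have hFcard : ∀ f ∈ T.pi P, ((F f).card : ℝ) ≤ ∏ i, (2 * (N i : ℝ) / ∏ ℓ ∈ T, (ℓ : ℝ)) := by
    intro f hf
    rw [hF, Fintype.card_piFinset]
    push_cast
    apply Finset.prod_le_prod (fun _ _ => Nat.cast_nonneg _)
    intro i _
    exact class_count3 T hT (b i) (N i) (hN i) (cf f i)
  have h1 : (((Box b N).filter
        (fun p => ∀ ℓ ∈ T, (fun i => p i % ℓ) ∈ P ℓ)).card : ℝ) ≤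
      ∑ f ∈ T.pi P, ((F f).card : ℝ) := by
    have := (Finset.card_le_card hsub).trans Finset.card_biUnion_le
    exact_mod_cast this
  refine h1.trans ((Finset.sum_le_sum hFcard).trans ?_)
  rw [Finset.sum_const, nsmul_eq_mul, Finset.card_pi]
  have h2 : ((∏ ℓ ∈ T, (P ℓ).card : ℕ) : ℝ) ≤ θ ^ T.card * (∏ ℓ ∈ T, (ℓ : ℝ)) ^ k := by
    push_cast
    calc ∏ ℓ ∈ T, ((P ℓ).card : ℝ) ≤ ∏ ℓ ∈ T, (θ * (ℓ : ℝ) ^ k) :=
          Finset.prod_le_prod (fun _ _ => Nat.cast_nonneg _) hcard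
      _ = θ ^ T.card * (∏ ℓ ∈ T, (ℓ : ℝ)) ^ k := by
          rw [Finset.prod_mul_distrib, Finset.prod_const, Finset.prod_pow]
  have h3 : ∏ i : Fin k, (2 * (N i : ℝ) / ∏ ℓ ∈ T, (ℓ : ℝ)) =
      2 ^ k * (∏ i, (N i : ℝ)) / (∏ ℓ ∈ T, (ℓ : ℝ)) ^ k := by
    rw [Finset.prod_div_distrib, Finset.prod_mul_distrib, Finset.prod_const, Finset.prod_const,
      Finset.card_univ, Fintype.card_fin]
  rw [h3]
  have h4 : 0 ≤ 2 ^ k * (∏ i, (N i : ℝ)) / (∏ ℓ ∈ T, (ℓ : ℝ)) ^ k := by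
    positivity
  refine (mul_le_mul_of_nonneg_right h2 h4).trans (le_of_eq ?_)
  field_simp

open Classical in
theorem bad_count3 (m : ℕ) (hm : m.Prime) : ∃ c : ℝ, 0 < c ∧ ∃ N₀ : ℕ, ∀ N : ℕ, N₀ ≤ N →
    ∀ k K : ℕ, (K : ℝ) ≤ Real.log N ^ (1 / 10 : ℝ) → 16 * k ≤ K → m ≤ K →
    ∀ b N' : Fin k → ℕ, (∀ i, N ≤ N' i) →
      (((Box b N').filter (fun p => ¬ Good3 K m p)).card : ℝ) ≤
        Real.exp (-c * (Real.log N / Real.log (Real.log N))) * ∏ i, (N' i : ℝ) := by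
  have hQ : 1 ≤ m ^ 3 := Nat.one_le_pow _ _ hm.pos
  obtain ⟨κ, hκ, Y₁, hY₁⟩ := sp (m ^ 3) hQ
  obtain ⟨c₁, hc₁0, hc₁4, x₀, hx₀, hnum⟩ := numeric2 m 2 (κ / 2) hm.one_lt.le (by norm_num)
    (by positivity)
  refine ⟨c₁, hc₁0, ⌈Real.exp (max x₀ (4 * Y₁))⌉₊ + 16, ?_⟩
  intro N hN k K hK hkK hmK b N' hN'
  have hk : (k : ℝ) ≤ Real.log N ^ (1 / 10 : ℝ) := by
    refine le_trans ?_ hK
    exact_mod_cast (by omega : k ≤ K)
  have hN16 : 16 ≤ N := by omega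
  have hNR : (16 : ℝ) ≤ N := by exact_mod_cast hN16
  set x : ℝ := Real.log N with hx
  have hxmax : max x₀ (4 * (Y₁ : ℝ)) ≤ x := by
    rw [hx, Real.le_log_iff_exp_le (by linarith)]
    have h1 : ⌈Real.exp (max x₀ (4 * Y₁))⌉₊ ≤ N := by omega
    exact (Nat.le_ceil _).trans (by exact_mod_cast h1)
  have hx₀x : x₀ ≤ x := (le_max_left _ _).trans hxmax
  have hxY : 4 * (Y₁ : ℝ) ≤ x := (le_max_right _ _).trans hxmax
  have hx1600 : (1600 : ℝ) ≤ x := hx₀.trans hx₀x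
  have hx0 : 0 < x := by linarith
  obtain ⟨l4a, l4b⟩ := log_four_bounds
  set y : ℕ := ⌊x / (2 * Real.log 4)⌋₊ with hy
  have hyle : (y : ℝ) ≤ x / (2 * Real.log 4) := Nat.floor_le (by positivity)
  have hylt : x / (2 * Real.log 4) < (y : ℝ) + 1 := Nat.lt_floor_add_one _
  have hyx : (y : ℝ) ≤ x := by
    refine hyle.trans ?_
    rw [div_le_iff₀ (by positivity)]
    nlinarith
  have hx4 : x / 4 ≤ y := by
    have e1 : x / 4 + 1 ≤ x / (2 * Real.log 4) := by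
      rw [le_div_iff₀ (by positivity)]
      nlinarith
    linarith
  have hYy : Y₁ ≤ y := by
    have : (Y₁ : ℝ) ≤ y := by linarith
    exact_mod_cast this
  have hg := hY₁ y hYy
  obtain ⟨L, hL1, hL2, hL3⟩ := Pool.Agent.H901R3.MS.t_LY y ⌊(y : ℝ) ^ (3 / 4 : ℝ)⌋₊
  have hK1 : 1 ≤ K := hm.one_lt.le.trans hmK
  set T : Finset ℕ := (GoodP (m ^ 3) y).filter (fun ℓ => K < ℓ) with hT
  have hTp : ∀ ℓ ∈ T, ℓ.Prime ∧ ℓ - 1 ∣ m * L ∧ m ^ 3 ∣ ℓ - 1 ∧ K < ℓ ∧ ℓ ≤ y := by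
    intro ℓ hℓ
    rw [hT, mem_filter, GoodP, mem_filter, mem_Icc] at hℓ
    obtain ⟨⟨⟨h1, h2⟩, h3, h4, h5⟩, h6⟩ := hℓ
    refine ⟨h3, ?_, ?_, h6, h2⟩
    · have : ℓ - 1 ∣ L := hL3 (ℓ - 1) (by have := h3.two_le; omega) (by omega) h5
      exact this.mul_left m
    · have : 1 ≡ ℓ [MOD m ^ 3] := by
        have h7 : ℓ ≡ 1 [MOD m ^ 3] := h4
        exact h7.symm
      exact (Nat.modEq_iff_dvd' h1).1 this
  have hTcard : ((GoodP (m ^ 3) y).card : ℝ) ≤ (T.card : ℝ) + K := by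
    have h1 : GoodP (m ^ 3) y ⊆ T ∪ Icc 1 K := by
      intro ℓ hℓ
      rw [mem_union]
      by_cases h : K < ℓ
      · left; rw [hT, mem_filter]; exact ⟨hℓ, h⟩
      · right
        have : ℓ.Prime := by
          rw [GoodP, mem_filter] at hℓ; exact hℓ.2.1
        rw [mem_Icc]; exact ⟨this.one_lt.le, by omega⟩
    have h2 := (Finset.card_le_card h1).trans (Finset.card_union_le _ _)
    rw [Nat.card_Icc, Nat.add_sub_cancel] at h2
    exact_mod_cast h2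
  -- half of the primes
  set t' : ℕ := T.card / 2 with ht'
  have ht'2 : T.card ≤ 2 * t' + 1 := by omega
  have ht'1 : 2 * t' ≤ T.card := by omega
  have hhalf : κ / 2 * (y / Real.log y) ≤ (t' : ℝ) + K := by
    have e1 : κ * (y / Real.log y) ≤ (T.card : ℝ) + K := hg.trans hTcard
    have e2 : (T.card : ℝ) ≤ 2 * t' + 1 := by exact_mod_cast ht'2
    have e3 : (1 : ℝ) ≤ K := by exact_mod_cast hK1
    have e4 : κ / 2 * (y / Real.log y) = (κ * (y / Real.log y)) / 2 := by ring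
    rw [e4]
    linarith
  have hn := hnum x hx₀x k K y L t' hk hK hK1 hx4 hyx (by exact_mod_cast hL2) hL1 hhalf
  have hpowle : (7 / 8 : ℝ) ^ T.card ≤ (13 / 16) ^ t' := by
    calc (7 / 8 : ℝ) ^ T.card ≤ (7 / 8) ^ (2 * t') :=
          pow_le_pow_of_le_one (by norm_num) (by norm_num) ht'1
      _ = ((7 / 8 : ℝ) ^ 2) ^ t' := by rw [pow_mul]
      _ ≤ (13 / 16) ^ t' := pow_le_pow_left₀ (by norm_num) (by norm_num) _
  set e₁ : ℝ := Real.exp (-c₁ * (x / Real.log x)) with he₁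
  have he₁0 : 0 < e₁ := Real.exp_pos _
  have hmod : ∏ ℓ ∈ T, ℓ ≤ N := by
    have h1 := prod_primes_le T y (fun ℓ hℓ => ⟨(hTp ℓ hℓ).1, (hTp ℓ hℓ).2.2.2.2⟩)
    have h2 : ((∏ ℓ ∈ T, ℓ : ℕ) : ℝ) ≤ N := by
      have e1 : ((∏ ℓ ∈ T, ℓ : ℕ) : ℝ) ≤ ((4 ^ y : ℕ) : ℝ) := by
        exact_mod_cast h1
      refine e1.trans ?_
      push_cast
      have e2 : (4 : ℝ) ^ y = Real.exp (y * Real.log 4) := by
        rw [Real.exp_nat_mul, Real.exp_log (by norm_num)]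
      rw [e2]
      have e3 : (y : ℝ) * Real.log 4 ≤ x := by
        rw [le_div_iff₀ (by positivity)] at hyle
        have : 0 ≤ (y : ℝ) * Real.log 4 := by positivity
        linarith
      calc Real.exp (y * Real.log 4) ≤ Real.exp x := Real.exp_le_exp.2 e3
        _ = N := by rw [hx, Real.exp_log (by linarith)]
    exact_mod_cast h2
  set V : ℝ := ∏ i, (N' i : ℝ) with hV
  have hV0 : 0 ≤ V := Finset.prod_nonneg fun _ _ => Nat.cast_nonneg _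
  set F : Idx k → Finset (Fin k → ℕ) := fun x =>
    (Box b N').filter (fun p => ∀ ℓ ∈ T, (fun i => p i % ℓ) ∈
      P3 m x.1.1 x.1.2.1 x.2.1 x.2.2 ℓ) with hF
  have hFcard : ∀ x ∈ Params k K m (m * L), ((F x).card : ℝ) ≤ 2 ^ k * (7 / 8) ^ T.card * V := by
    intro x hx
    rw [Params] at hx
    obtain ⟨hx1, ⟨i₀, g1, g2, g3⟩, hx3⟩ := Finset.mem_filter.1 hx
    rw [mem_product, mem_product] at hx1
    have hs : x.2.1 = 1 ∨ x.2.1 = -1 := by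
      have := (Finset.mem_product.1 hx1.2).1
      simpa using this
    apply tuple_count3 k T (fun ℓ hℓ => (hTp ℓ hℓ).1) b N' (fun i => hmod.trans (hN' i))
      (fun ℓ => P3 m x.1.1 x.1.2.1 x.2.1 x.2.2 ℓ) (7 / 8)
    intro ℓ hℓ
    obtain ⟨h1, h2, h3, h4, _⟩ := hTp ℓ hℓ
    apply P3_card hm _ _ _ hs _ ℓ h1 h3 i₀ g1 g2
    · intro h
      have := hx3 ℓ h1 h
      omega
    · omega
  have hsub : ((Box b N').filter (fun p => ¬ Good3 K m p)) ⊆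
      (Params k K m (m * L)).biUnion F := by
    intro p hp
    rw [mem_filter] at hp
    obtain ⟨x, hx, hxr⟩ := residues3 (k := k) (K := K) (m := m) (L := m * L) hm hK1
      (dvd_mul_right m L) (Nat.mul_pos hm.pos hL1) T
      (fun ℓ hℓ => ⟨(hTp ℓ hℓ).1, (hTp ℓ hℓ).2.1⟩) p hp.2
    rw [mem_biUnion]
    exact ⟨x, hx, by rw [hF, mem_filter]; exact ⟨hp.1, hxr⟩⟩
  have h1 : (((Box b N').filter (fun p => ¬ Good3 K m p)).card : ℝ) ≤
      ∑ x ∈ Params k K m (m * L), ((F x).card : ℝ) := by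
    have e1 := Finset.card_le_card hsub
    have e2 := Finset.card_biUnion_le (s := Params k K m (m * L)) (t := F)
    exact_mod_cast e1.trans e2
  refine h1.trans ?_
  calc ∑ x ∈ Params k K m (m * L), ((F x).card : ℝ)
      ≤ ∑ x ∈ Params k K m (m * L), 2 ^ k * (7 / 8) ^ T.card * V := Finset.sum_le_sum hFcard
    _ = ((Params k K m (m * L)).card : ℝ) * (2 ^ k * (7 / 8) ^ T.card * V) := by
        rw [Finset.sum_const, nsmul_eq_mul]
    _ ≤ (((m * L : ℕ) : ℝ) ^ (3 * k) * (2 * ((K : ℝ) ^ m) ^ K)) *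
          (2 ^ k * (13 / 16) ^ t' * V) := by
        apply mul_le_mul (Params_card k K m (m * L)) _ (by positivity) (by positivity)
        gcongr
    _ = (((m * L : ℕ) : ℝ) ^ (3 * k) * (2 * ((K : ℝ) ^ m) ^ K) * 2 ^ k *
          (13 / 16) ^ t') * V := by ring
    _ ≤ e₁ / 2 * V := mul_le_mul_of_nonneg_right hn hV0
    _ ≤ e₁ * V := by
        apply mul_le_mul_of_nonneg_right _ hV0
        linarith

end Pool.Agent.Q16.RI
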