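import Pool.Agent.Y353.PS.Loc2

/-!
# Power products of random integers: a power saving, uniform in the number of the integers

The theorems of `Pool/Agent/Y353/PS/Loc.lean` and `Loc2.lean`, with `(log N) ^ (19/20)`-smooth
coefficients and uniformly in the number `k ≤ (log N) ^ (1/100)` of the integers.
-/

set_option autoImplicit false

namespace Pool.Agent.Q16.RI

open Finset Filter Topology
open Pool.Agent.TH194.BL Pool.Agent.Y353.PS

theorem ev_uni (B K z₀ : ℕ) (hK : 1 ≤ K) : ∀ᶠ L : ℝ in atTop, ∀ k : ℕ,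
    (k : ℝ) ≤ L ^ (1 / 100 : ℝ) → Par' k B K z₀ L ⌊Real.exp (√L)⌋₊ := by
  have hsq : Tendsto (fun L : ℝ => √L) atTop atTop := Real.tendsto_sqrt_atTop
  have hex : Tendsto (fun L : ℝ => Real.exp (√L)) atTop atTop := Real.tendsto_exp_atTop.comp hsq
  have hfl : Tendsto (fun L : ℝ => ⌊Real.exp (√L)⌋₊) atTop atTop := tendsto_nat_floor_atTop.comp hex
  have hflR : Tendsto (fun L : ℝ => ((⌊Real.exp (√L)⌋₊ : ℕ) : ℝ)) atTop atTop :=
    tendsto_natCast_atTop_atTop.comp hfl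
  have hKR : (1 : ℝ) ≤ K := by exact_mod_cast hK
  have e1 := eventually_ge_atTop (max 1 ((64 : ℝ)))
  have e2 : ∀ᶠ L : ℝ in atTop, (2 : ℝ) ≤ Real.exp (√L) := hex.eventually_ge_atTop _
  have e3 := hfl.eventually (eventually_ge_atTop z₀)
  -- `6 √L ≤ z ^ (1/200)`
  have e5 : ∀ᶠ L : ℝ in atTop, 12 * √L ≤ Real.exp (√L / 200) := by
    have h := (Real.tendsto_exp_div_pow_atTop 1).comp (hsq.atTop_div_const (show (0 : ℝ) < 200 by norm_num))
    have h2 := h.eventually_ge_atTop 2400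
    filter_upwards [h2, eventually_gt_atTop 0] with L hL hL0
    simp only [Function.comp_apply, pow_one] at hL
    have : 0 < √L := Real.sqrt_pos.2 hL0
    rw [le_div_iff₀ (by positivity)] at hL
    linarith
  have e6 := ev_log (B * 40) (1 / 40) (by norm_num)
  have e7 : ∀ᶠ L : ℝ in atTop, 40000 * (K : ℝ) * 5 ≤ L ^ (1 / 400 : ℝ) :=
    (tendsto_rpow_atTop (by norm_num)).eventually_ge_atTop _
  filter_upwards [e1, e2, e3, e5, e6, e7] with L h1 h2 h3 h5 h6 h7₀
  intro k hk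
  have hL1 : 1 ≤ L := (le_max_left _ _).trans h1
  have hL64 : 64 ≤ L := (le_max_right _ _).trans h1
  have hL0 : 0 < L := by linarith
  set z := ⌊Real.exp (√L)⌋₊ with hz
  have hs8 : 8 ≤ √L := by
    rw [Real.le_sqrt (by norm_num) hL0.le]; norm_num; exact hL64
  have hsL : √L * √L = L := Real.mul_self_sqrt hL0.le
  have hsleL : √L ≤ L := by nlinarith
  have hzle : (z : ℝ) ≤ Real.exp (√L) := Nat.floor_le (Real.exp_nonneg _)
  have hzge : Real.exp (√L) / 2 ≤ (z : ℝ) := by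
    have := Nat.lt_floor_add_one (Real.exp (√L))
    rw [← hz] at this
    linarith
  have hz0 : (0 : ℝ) < z := by linarith [Real.exp_pos (√L)]
  have hkL : (k : ℝ) ≤ L := hk.trans (by
    conv_rhs => rw [← Real.rpow_one L]
    exact Real.rpow_le_rpow_of_exponent_le hL1 (by norm_num))
  have h7 : 40000 * (K : ℝ) * (k + 4) ≤ L ^ (1 / 80 : ℝ) := by
    have a0 : L ^ (1 / 80 : ℝ) = L ^ (1 / 400 : ℝ) * L ^ (1 / 100 : ℝ) := by
      rw [← Real.rpow_add hL0]; norm_num
    have a1 : 1 ≤ L ^ (1 / 100 : ℝ) := Real.one_le_rpow hL1 (by norm_num)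
    rw [a0]
    calc 40000 * (K : ℝ) * (k + 4) ≤ 40000 * (K : ℝ) * (5 * L ^ (1 / 100 : ℝ)) := by
          apply mul_le_mul_of_nonneg_left _ (by positivity)
          linarith
      _ = (40000 * (K : ℝ) * 5) * L ^ (1 / 100 : ℝ) := by ring
      _ ≤ _ := mul_le_mul_of_nonneg_right h7₀ (by linarith)
  have h4 : 16 * (k + 4) ^ 2 ≤ z := by
    have a1 : (12 * √L) ^ 6 ≤ Real.exp (√L) := by
      calc (12 * √L) ^ 6 ≤ Real.exp (√L / 200) ^ 6 := pow_le_pow_left₀ (by positivity) h5 6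
        _ = Real.exp (6 * (√L / 200)) := by rw [← Real.exp_nat_mul]; norm_num
        _ ≤ Real.exp (√L) := Real.exp_le_exp.2 (by linarith)
    have a2 : (12 * √L) ^ 6 = 12 ^ 6 * (√L * √L) ^ 3 := by ring
    rw [a2, hsL] at a1
    have a3 : (16 : ℝ) * (k + 4) ^ 2 ≤ 64 * L ^ 2 := by
      have b1 : (k : ℝ) + 4 ≤ 2 * L := by linarith
      have b2 : ((k : ℝ) + 4) ^ 2 ≤ (2 * L) ^ 2 := pow_le_pow_left₀ (by positivity) b1 2
      nlinarith
    have a4 : 64 * L ^ 2 ≤ 12 ^ 6 * L ^ 3 / 2 := by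
      have b1 : 64 * L ^ 2 ≤ L ^ 3 := by
        have : L ^ 3 = L * L ^ 2 := by ring
        rw [this]
        exact mul_le_mul_of_nonneg_right hL64 (by positivity)
      have b2 : 0 ≤ L ^ 3 := by positivity
      linarith
    have a5 : ((16 * (k + 4) ^ 2 : ℕ) : ℝ) ≤ z := by
      push_cast
      linarith
    exact_mod_cast a5
  have hlogz : √L - 1 ≤ Real.log z := by
    have h8 := Real.log_le_log (by positivity) hzge
    rw [Real.log_div (Real.exp_pos _).ne' (by norm_num), Real.log_exp] at h8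
    have := Real.log_two_lt_d9
    linarith
  have hlogz7 : 7 ≤ Real.log z := by linarith
  have hllz : √L / 2 ≤ Real.log z := by linarith
  have hLz : L ≤ Real.log z ^ 3 := by
    have a1 : L ≤ 4 * Real.log z ^ 2 := by nlinarith
    have a2 : 4 * Real.log z ^ 2 ≤ Real.log z * Real.log z ^ 2 := by
      apply mul_le_mul_of_nonneg_right (by linarith) (by positivity)
    calc L ≤ Real.log z * Real.log z ^ 2 := a1.trans a2
      _ = Real.log z ^ 3 := by ring
  have hzp : Real.exp (√L / 200) / 2 ≤ (z : ℝ) ^ (1 / 200 : ℝ) := by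
    calc Real.exp (√L / 200) / 2 ≤ Real.exp (√L / 200) / 2 ^ (1 / 200 : ℝ) := by
          apply div_le_div_of_nonneg_left (Real.exp_nonneg _) (by positivity)
          calc (2 : ℝ) ^ (1 / 200 : ℝ) ≤ 2 ^ (1 : ℝ) :=
                Real.rpow_le_rpow_of_exponent_le (by norm_num) (by norm_num)
            _ = 2 := Real.rpow_one 2
      _ = (Real.exp (√L) / 2) ^ (1 / 200 : ℝ) := by
          rw [Real.div_rpow (Real.exp_nonneg _) (by norm_num), ← Real.exp_mul]
          congr 2; ring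
      _ ≤ _ := Real.rpow_le_rpow (by positivity) hzge (by norm_num)
  have hz1 : (1 : ℝ) ≤ z := by
    have : (1 : ℝ) ≤ Real.exp (√L) / 2 := by linarith
    linarith
  refine ⟨hL1, hzle, hlogz, h3, h4, ?_, by linarith, by linarith, ?_, ?_⟩
  · rw [pow_mul]
    exact pow_le_pow_left₀ hL0.le hLz B
  · have : (z : ℝ) ^ (1 / 200 : ℝ) ≤ (z : ℝ) ^ (1 / 100 : ℝ) :=
      Real.rpow_le_rpow_of_exponent_le hz1 (by norm_num)
    linarith
  · -- the final inequality
    have hq0 : 0 < L ^ (1 / 80 : ℝ) := by positivity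
    have f1 : L ^ (19 / 20 : ℝ) ≤ L ^ (39 / 40 : ℝ) :=
      Real.rpow_le_rpow_of_exponent_le hL1 (by norm_num)
    have f2 : L ^ (39 / 40 : ℝ) = L ^ (19 / 20 : ℝ) * L ^ (1 / 40 : ℝ) := by
      rw [← Real.rpow_add hL0]; norm_num
    have f3 : L = L ^ (39 / 40 : ℝ) * (L ^ (1 / 80 : ℝ) * L ^ (1 / 80 : ℝ)) := by
      rw [← Real.rpow_add hL0, ← Real.rpow_add hL0]; norm_num
    have f4 : 1 ≤ L ^ (39 / 40 : ℝ) := Real.one_le_rpow hL1 (by norm_num)
    have f5 : √L ≤ L ^ (39 / 40 : ℝ) := by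
      rw [Real.sqrt_eq_rpow]
      exact Real.rpow_le_rpow_of_exponent_le hL1 (by norm_num)
    have f6 : (B : ℝ) * Real.log L * (2 * L ^ (19 / 20 : ℝ)) ≤ L ^ (39 / 40 : ℝ) := by
      have a1 : (B : ℝ) * Real.log L * 2 ≤ L ^ (1 / 40 : ℝ) := by
        have hlog0 : 0 ≤ Real.log L := Real.log_nonneg hL1
        have : 0 ≤ (B : ℝ) * Real.log L := by positivity
        linarith
      rw [f2]
      calc (B : ℝ) * Real.log L * (2 * L ^ (19 / 20 : ℝ)) =
          L ^ (19 / 20 : ℝ) * ((B : ℝ) * Real.log L * 2) := by ring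
        _ ≤ _ := mul_le_mul_of_nonneg_left a1 (by positivity)
    have f7 : Real.log 2 ≤ L ^ (39 / 40 : ℝ) := by
      have := Real.log_two_lt_d9
      linarith
    have f8 : (k : ℝ) * Real.log 12 ≤ 3 * k * L ^ (39 / 40 : ℝ) := by
      have a1 : Real.log 12 ≤ 3 := by
        rw [Real.log_le_iff_le_exp (by norm_num)]
        have := Real.exp_one_gt_d9
        have h3 : Real.exp 3 = Real.exp 1 ^ 3 := by rw [← Real.exp_nat_mul]; norm_num
        rw [h3]
        calc (12 : ℝ) ≤ 2.7 ^ 3 := by norm_num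
          _ ≤ Real.exp 1 ^ 3 := pow_le_pow_left₀ (by norm_num) (by linarith) 3
      have hk0 : (0 : ℝ) ≤ k := Nat.cast_nonneg k
      calc (k : ℝ) * Real.log 12 ≤ k * 3 := mul_le_mul_of_nonneg_left a1 hk0
        _ = 3 * k * 1 := by ring
        _ ≤ _ := mul_le_mul_of_nonneg_left f4 (by positivity)
    have f9 : (k : ℝ) * L ^ (19 / 20 : ℝ) ≤ k * L ^ (39 / 40 : ℝ) :=
      mul_le_mul_of_nonneg_left f1 (Nat.cast_nonneg k)
    have f10 : (4 * (k : ℝ) + 4) * L ^ (39 / 40 : ℝ) ≤ (1 / (400 * K) - 1 / (500 * K)) * L := by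
      have a1 : (1 : ℝ) / (400 * K) - 1 / (500 * K) = 1 / (2000 * K) := by
        field_simp; norm_num
      rw [a1]
      have a2 : (1 : ℝ) / (2000 * K) * L = (L ^ (39 / 40 : ℝ)) *
          ((L ^ (1 / 80 : ℝ) * L ^ (1 / 80 : ℝ)) / (2000 * K)) := by
        nth_rewrite 1 [f3]
        ring
      rw [a2, mul_comm]
      apply mul_le_mul_of_nonneg_left _ (by positivity)
      rw [le_div_iff₀ (by positivity)]
      have hk0 : (0 : ℝ) ≤ k := Nat.cast_nonneg k
      have a3 : 1 ≤ L ^ (1 / 80 : ℝ) := Real.one_le_rpow hL1 (by norm_num)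
      calc (4 * (k : ℝ) + 4) * (2000 * K) ≤ 40000 * (K : ℝ) * (k + 4) := by nlinarith
        _ ≤ L ^ (1 / 80 : ℝ) := h7
        _ = L ^ (1 / 80 : ℝ) * 1 := (mul_one _).symm
        _ ≤ _ := mul_le_mul_of_nonneg_left a3 hq0.le
    linarith


/-- one prime exponent `q ≤ (log N) ^ B`, one cube -/
theorem one_uni : ∃ K : ℕ, 1 ≤ K ∧ ∀ B : ℕ, ∃ N₀ : ℕ, ∀ N : ℕ, N₀ ≤ N → ∀ k : ℕ,
    (k : ℝ) ≤ Real.log N ^ (1 / 100 : ℝ) → ∀ q : ℕ, q.Prime →
    (q : ℝ) ≤ Real.log N ^ B → ∀ a : Fin k → ℕ, ∀ E : Finset (Fin k → ℕ),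
    (∀ A ∈ E, A ∈ Cube a N ∧ A ∈ Exc k q (Real.log N ^ (19 / 20 : ℝ))) →
    (E.card : ℝ) ≤ (N : ℝ) ^ ((k : ℝ) - 1 / (500 * K)) := by
  classical
  obtain ⟨K, hK, hsup⟩ := supply page
  refine ⟨K, hK, fun B => ?_⟩
  obtain ⟨z₀, hz₀⟩ := hsup (3 * B)
  have hev := (Real.tendsto_log_atTop.comp tendsto_natCast_atTop_atTop).eventually
    (ev_uni B K (max z₀ 2) hK)
  obtain ⟨N₀, hN₀⟩ := eventually_atTop.1 hev
  refine ⟨max N₀ 1, fun N hN k hk q hq hqB a E hE => ?_⟩
  have hN1 : 1 ≤ N := (le_max_right _ _).trans hN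
  obtain ⟨z, hz⟩ : ∃ z : ℕ, z = ⌊Real.exp (√(Real.log N))⌋₊ := ⟨_, rfl⟩
  have hp : Par' k B K (max z₀ 2) (Real.log N) z := by
    rw [hz]; exact hN₀ N ((le_max_left _ _).trans hN) k hk
  have hKR : (1 : ℝ) ≤ K := by exact_mod_cast hK
  set L := Real.log N with hL
  have hNR : (0 : ℝ) < N := by exact_mod_cast hN1
  have hNexp : (N : ℝ) = Real.exp L := (Real.exp_log hNR).symm
  have hL0 : 0 < L := by linarith [hp.l1]
  have hsL : √L * √L = L := Real.mul_self_sqrt hL0.le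
  have hz2 : 2 ≤ z := (le_max_right _ _).trans hp.z0
  have hzR : (0 : ℝ) < z := by exact_mod_cast (by omega : 0 < z)
  have hlogz : Real.log z ≤ √L := by
    have := Real.log_le_log hzR hp.zle
    rwa [Real.log_exp] at this
  obtain ⟨P, lam, p1, p2, p3, p4, p5⟩ := hz₀ z ((le_max_left _ _).trans hp.z0) q hq
    (hqB.trans hp.qz)
  -- j and Q
  set j := ⌊√L / (2 * K)⌋₊ with hj
  have hjle : (j : ℝ) ≤ √L / (2 * K) := Nat.floor_le (by positivity)
  have hjge : √L / (2 * K) - 1 ≤ (j : ℝ) := by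
    have := Nat.lt_floor_add_one (√L / (2 * K)); linarith
  have hjL : (j : ℝ) ≤ √L := hjle.trans (div_le_self (Real.sqrt_nonneg _) (by linarith))
  have hjK : (j : ℝ) * (2 * K) ≤ √L := by
    rwa [le_div_iff₀ (by positivity)] at hjle
  set Q := Nat.sqrt N with hQ
  have hQ2 : Q ^ 2 ≤ N := by rw [sq]; exact Nat.sqrt_le N
  have hprod : ∀ D ∈ P.powersetCard j, ∏ t ∈ D, t ≤ Q := by
    intro D hD
    rw [mem_powersetCard] at hD
    rw [hQ, Nat.le_sqrt, ← sq]
    have h1 : ∏ t ∈ D, t ≤ z ^ (K * j) := by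
      calc ∏ t ∈ D, t ≤ ∏ t ∈ D, z ^ K := prod_le_prod' fun t ht => (p1 t (hD.1 ht)).2.2.1
        _ = z ^ (K * j) := by rw [prod_const, hD.2, pow_mul]
    have h2 : ((z ^ (K * j)) ^ 2 : ℕ) ≤ N := by
      have h3 : (((z ^ (K * j)) ^ 2 : ℕ) : ℝ) ≤ N := by
        rw [← Real.log_le_log_iff (by positivity) hNR]
        push_cast
        rw [Real.log_pow, Real.log_pow, ← hL]
        push_cast
        calc (2 : ℝ) * (K * j * Real.log z) = (j * (2 * K)) * Real.log z := by ring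
          _ ≤ √L * √L := mul_le_mul hjK hlogz (by linarith [hp.l0]) (Real.sqrt_nonneg _)
          _ = L := hsL
      exact_mod_cast h3
    exact (Nat.pow_le_pow_left h1 2).trans h2
  have hPc : (z : ℝ) ^ (1 / 100 : ℝ) ≤ (P.card : ℝ) := p5
  have hjP : 2 * j ≤ P.card := by
    have : ((2 * j : ℕ) : ℝ) ≤ P.card := by
      push_cast
      have := hp.jz2
      linarith
    exact_mod_cast this
  -- the covering
  have hY0 : 0 ≤ L ^ (19 / 20 : ℝ) := by positivity
  obtain ⟨S, hS⟩ : ∃ S : Finset ℕ, S = lam.primeFactors ∪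
      (range (⌊L ^ (19 / 20 : ℝ)⌋₊ + 1)).filter (fun p => p.Prime) := ⟨_, rfl⟩
  have hcov := card_exc_le loc (lsk add low) desc (k := k) hq (lam := lam) (N := N) (Q := Q) (j := j) a
    (P := P) (S := S) (Y := L ^ (19 / 20 : ℝ)) hN1 hQ2 (fun t ht => (p1 t ht).1)
    (fun t ht => (p1 t ht).2.2.2.1) (fun t ht => (p1 t ht).2.2.2.2)
    (fun t ht => hp.zk.trans (p1 t ht).2.1.le) hprod (by omega) p2 p3
    (fun p hp' => by
      rw [hS, mem_union, mem_filter] at hp'
      rcases hp' with h | h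
      · exact Nat.prime_of_mem_primeFactors h
      · exact h.2)
    (fun p hp' hpl => by
      rw [hS, mem_union]
      exact Or.inl (Nat.mem_primeFactors.2 ⟨hp', hpl, p2.ne'⟩))
    (fun p hp' hp1 => by
      rw [hS, mem_union, mem_filter, mem_range]
      right
      refine ⟨?_, hp'⟩
      have := Nat.le_floor hp1
      omega)
  have hEle : (E.card : ℝ) ≤ (((Cube a N).filter (fun A => A ∈ Exc k q (L ^ (19 / 20 : ℝ)))).card : ℝ) := by
    have : E ⊆ (Cube a N).filter (fun A => A ∈ Exc k q (L ^ (19 / 20 : ℝ))) := by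
      intro A hA
      rw [mem_filter]
      exact hE A hA
    exact_mod_cast card_le_card this
  refine hEle.trans (hcov.trans ?_)
  -- logarithms
  have hch := choose_lower' hjP
  have hqR : (0 : ℝ) < q := by exact_mod_cast hq.pos
  have hlamR : (0 : ℝ) < lam := by exact_mod_cast p2
  have hlq : Real.log q ≤ B * Real.log L := by
    have := Real.log_le_log hqR hqB
    rwa [Real.log_pow] at this
  have hlq0 : 0 ≤ Real.log q := Real.log_natCast_nonneg q
  have hllam : Real.log lam ≤ L ^ (19 / 20 : ℝ) / 2 := by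
    refine p4.trans ?_
    have h1 : Real.log z ^ (19 / 10 : ℝ) ≤ √L ^ (19 / 10 : ℝ) :=
      Real.rpow_le_rpow (by linarith [hp.l0]) hlogz (by norm_num)
    have h2 : √L ^ (19 / 10 : ℝ) = L ^ (19 / 20 : ℝ) := by
      rw [Real.sqrt_eq_rpow, ← Real.rpow_mul hL0.le]; norm_num
    rw [h2] at h1
    linarith
  have hPcard₀ : (lam.primeFactors.card : ℝ) ≤ L ^ (19 / 20 : ℝ) := by
    have h1 := card_primeFactors_log p2
    have h2 : (1 : ℝ) / 2 ≤ Real.log 2 := by have := Real.log_two_gt_d9; linarith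
    have h3 : (lam.primeFactors.card : ℝ) * (1 / 2) ≤ (lam.primeFactors.card : ℝ) * Real.log 2 :=
      mul_le_mul_of_nonneg_left h2 (Nat.cast_nonneg _)
    linarith
  have hPcard : (S.card : ℝ) ≤ 2 * L ^ (19 / 20 : ℝ) := by
    have h1 : S.card ≤ lam.primeFactors.card + ⌊L ^ (19 / 20 : ℝ)⌋₊ := by
      rw [hS]
      refine (card_union_le _ _).trans (Nat.add_le_add_left ?_ _)
      calc ((range (⌊L ^ (19 / 20 : ℝ)⌋₊ + 1)).filter (fun p => p.Prime)).card ≤
          (Ioc 0 ⌊L ^ (19 / 20 : ℝ)⌋₊).card := by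
            apply card_le_card
            intro p hp'
            rw [mem_filter, mem_range] at hp'
            rw [mem_Ioc]
            exact ⟨hp'.2.pos, by omega⟩
        _ = _ := by rw [Nat.card_Ioc, Nat.sub_zero]
    have h2 : (S.card : ℝ) ≤ (lam.primeFactors.card : ℝ) + (⌊L ^ (19 / 20 : ℝ)⌋₊ : ℝ) := by
      exact_mod_cast h1
    have h3 : (⌊L ^ (19 / 20 : ℝ)⌋₊ : ℝ) ≤ L ^ (19 / 20 : ℝ) := Nat.floor_le hY0
    linarith
  have hden : Real.exp (Real.log z / 200 * j) ≤ (P.card.choose j : ℝ) / 3 ^ j := by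
    have h1 : Real.exp (Real.log z / 200 * j) = ((z : ℝ) ^ (1 / 200 : ℝ)) ^ j := by
      rw [Real.rpow_def_of_pos hzR, ← Real.exp_nat_mul]
      congr 1; ring
    rw [h1, le_div_iff₀ (by positivity), ← mul_pow]
    refine le_trans ?_ hch
    rcases Nat.eq_zero_or_pos j with h0 | h0
    · rw [h0]; simp
    · apply pow_le_pow_left₀ (by positivity)
      have hj0 : (0 : ℝ) < j := by exact_mod_cast h0
      rw [le_div_iff₀ (by positivity)]
      calc (z : ℝ) ^ (1 / 200 : ℝ) * 3 * (2 * j) = (z : ℝ) ^ (1 / 200 : ℝ) * (6 * j) := by ring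
        _ ≤ (z : ℝ) ^ (1 / 200 : ℝ) * (z : ℝ) ^ (1 / 200 : ℝ) := by
            apply mul_le_mul_of_nonneg_left _ (by positivity)
            have := hp.jz
            linarith
        _ = (z : ℝ) ^ (1 / 100 : ℝ) := by rw [← Real.rpow_add hzR]; norm_num
        _ ≤ P.card := hPc
  have hlow : L / (400 * K) - √L ≤ Real.log z / 200 * j := by
    have a1 : (√L - 1) / 200 * (√L / (2 * K) - 1) ≤ Real.log z / 200 * j := by
      rcases le_total 0 (√L / (2 * K) - 1) with h0 | h0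
      · apply mul_le_mul _ hjge h0 (by linarith [hp.l0])
        have := hp.zge
        linarith
      · have h1 : 0 ≤ Real.log z / 200 * j := by
          have := hp.l0
          positivity
        have h2 : 0 ≤ (√L - 1) / 200 := by
          have : 1 ≤ √L := by
            rw [Real.one_le_sqrt]; exact hp.l1
          linarith
        nlinarith
    have a2 : (√L - 1) / 200 * (√L / (2 * K) - 1) =
        L / (400 * K) - (√L / 200 + √L / (400 * K) - 1 / 200) := by
      have hid : ∀ s Kr : ℝ, Kr ≠ 0 → (s - 1) / 200 * (s / (2 * Kr) - 1) =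
          s * s / (400 * Kr) - (s / 200 + s / (400 * Kr) - 1 / 200) := by
        intro s Kr hKr
        field_simp
        ring
      have h1 := hid (√L) K (by positivity)
      rwa [hsL] at h1
    have a3 : √L / (400 * K) ≤ √L / 400 := by
      apply div_le_div_of_nonneg_left (Real.sqrt_nonneg _) (by norm_num)
      linarith
    have a4 : 0 ≤ √L := Real.sqrt_nonneg _
    linarith
  have hfinal : 2 * (lam : ℝ) ^ (2 * k) * (q : ℝ) ^ S.card *
      ((12 * (N : ℝ)) ^ k / ((P.card.choose j : ℝ) / 3 ^ j)) ≤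
      Real.exp (Real.log 2 + k * L ^ (19 / 20 : ℝ) + B * Real.log L * (2 * L ^ (19 / 20 : ℝ)) +
        (k * Real.log 12 + k * L) - (L / (400 * K) - √L)) := by
    have b1 : (lam : ℝ) ^ (2 * k) ≤ Real.exp (k * L ^ (19 / 20 : ℝ)) := by
      rw [← Real.log_le_iff_le_exp (by positivity), Real.log_pow]
      push_cast
      calc (2 : ℝ) * k * Real.log lam ≤ 2 * k * (L ^ (19 / 20 : ℝ) / 2) :=
            mul_le_mul_of_nonneg_left hllam (by positivity)
        _ = _ := by ring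
    have b2 : (q : ℝ) ^ S.card ≤ Real.exp (B * Real.log L * (2 * L ^ (19 / 20 : ℝ))) := by
      rw [← Real.log_le_iff_le_exp (by positivity), Real.log_pow]
      calc (S.card : ℝ) * Real.log q ≤ (2 * L ^ (19 / 20 : ℝ)) * Real.log q :=
            mul_le_mul_of_nonneg_right hPcard hlq0
        _ ≤ (2 * L ^ (19 / 20 : ℝ)) * (B * Real.log L) :=
            mul_le_mul_of_nonneg_left hlq (by positivity)
        _ = _ := by ring
    have b3 : (12 * (N : ℝ)) ^ k = Real.exp (k * Real.log 12 + k * L) := by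
      rw [← mul_add, hL, ← Real.log_mul (by norm_num) hNR.ne', Real.exp_nat_mul,
        Real.exp_log (by positivity)]
    have b4 : (12 * (N : ℝ)) ^ k / ((P.card.choose j : ℝ) / 3 ^ j) ≤
        Real.exp (k * Real.log 12 + k * L) / Real.exp (L / (400 * K) - √L) := by
      rw [b3]
      apply div_le_div_of_nonneg_left (Real.exp_nonneg _) (Real.exp_pos _)
      exact (Real.exp_le_exp.2 hlow).trans hden
    have b5 : (2 : ℝ) = Real.exp (Real.log 2) := (Real.exp_log (by norm_num)).symm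
    rw [← Real.exp_sub] at b4
    calc 2 * (lam : ℝ) ^ (2 * k) * (q : ℝ) ^ S.card *
        ((12 * (N : ℝ)) ^ k / ((P.card.choose j : ℝ) / 3 ^ j)) ≤
        Real.exp (Real.log 2) * Real.exp (k * L ^ (19 / 20 : ℝ)) *
          Real.exp (B * Real.log L * (2 * L ^ (19 / 20 : ℝ))) *
          Real.exp (k * Real.log 12 + k * L - (L / (400 * K) - √L)) := by
          rw [← b5]
          gcongr
      _ = _ := by
          rw [← Real.exp_add, ← Real.exp_add, ← Real.exp_add]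
          congr 1; ring
  refine hfinal.trans ?_
  rw [hNexp, ← Real.exp_mul, Real.exp_le_exp]
  have hf := hp.fin
  have hk1 : L * ((k : ℝ) - 1 / (500 * K)) = k * L - 1 / (500 * K) * L := by ring
  have hk2 : (1 / (400 * K) - 1 / (500 * K)) * L = L / (400 * K) - 1 / (500 * K) * L := by ring
  rw [hk1]
  rw [hk2] at hf
  linarith


theorem power_saving_uni : ∃ δ : ℝ, 0 < δ ∧ δ ≤ 1 ∧ ∀ B : ℕ, ∃ N₀ : ℕ, ∀ N : ℕ, N₀ ≤ N →
    ∀ k : ℕ, (k : ℝ) ≤ Real.log N ^ (1 / 100 : ℝ) →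
    ∀ a M : Fin k → ℕ, (∀ i, N ≤ M i) → ∀ E : Finset (Fin k → ℕ),
    (∀ A ∈ E, (∀ i, a i < A i ∧ A i ≤ a i + M i) ∧ ∃ n q : ℕ, q.Prime ∧ q ∣ n ∧
      (q : ℝ) ≤ Real.log N ^ B ∧ A ∈ Exc k n (Real.log N ^ (19 / 20 : ℝ))) →
    (E.card : ℝ) ≤ (N : ℝ) ^ (-δ) * ∏ i, (M i : ℝ) := by
  classical
  obtain ⟨K, hK, hone⟩ := one_uni
  have hKR : (1 : ℝ) ≤ K := by exact_mod_cast hK
  refine ⟨1 / (600 * K), by positivity, ?_, fun B => ?_⟩
  · rw [div_le_one (by positivity)]
    linarith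
  obtain ⟨N₁, hN₁⟩ := hone B
  have hη : (0 : ℝ) < 1 / (500 * K) - 1 / (600 * K) := by
    have : (1 : ℝ) / (500 * K) - 1 / (600 * K) = 1 / (3000 * K) := by field_simp; norm_num
    rw [this]; positivity
  have v1 : ∀ᶠ N : ℕ in atTop, 2 * (Real.log N) ^ B ≤
      (N : ℝ) ^ ((1 / (500 * K) - 1 / (600 * K)) / 2 : ℝ) := by
    have h := ((isLittleO_log_rpow_rpow_atTop (s := (1 / (500 * K) - 1 / (600 * K)) / 2) B
      (half_pos hη)).const_mul_left 2).bound (show (0 : ℝ) < 1 by norm_num)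
    filter_upwards [tendsto_natCast_atTop_atTop.eventually h] with z hz
    rw [one_mul, Real.norm_of_nonneg (Real.rpow_nonneg (Nat.cast_nonneg z) _)] at hz
    refine le_trans ?_ hz
    refine le_trans (le_of_eq ?_) (Real.le_norm_self _)
    rw [Real.rpow_natCast]
  have v3 : ∀ᶠ N : ℕ in atTop, 1 / ((1 / (500 * K) - 1 / (600 * K)) / 2) ≤
      (Real.log N) ^ (99 / 100 : ℝ) :=
    ((tendsto_rpow_atTop (by norm_num)).comp
      (Real.tendsto_log_atTop.comp tendsto_natCast_atTop_atTop)).eventually_ge_atTop _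
  have v2 : ∀ᶠ N : ℕ in atTop, 1 ≤ Real.log N :=
    (Real.tendsto_log_atTop.comp tendsto_natCast_atTop_atTop).eventually_ge_atTop _
  obtain ⟨N₂, hN₂⟩ := eventually_atTop.1 (v1.and (v2.and v3))
  refine ⟨max (max N₁ N₂) 1, fun N hN k hk a M hM E hE => ?_⟩
  simp only [max_le_iff] at hN
  obtain ⟨⟨g1, g2⟩, g3⟩ := hN
  obtain ⟨w1₀, w2, w3⟩ := hN₂ N g2
  have hNR : (0 : ℝ) < N := by exact_mod_cast g3
  set L := Real.log (N : ℝ) with hL
  have hLB : 1 ≤ L ^ B := one_le_pow₀ w2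
  have hL0 : 0 < L := by linarith
  have w1 : (2 * 2 ^ k) * L ^ B ≤ (N : ℝ) ^ (1 / (500 * K) - 1 / (600 * K) : ℝ) := by
    set η : ℝ := 1 / (500 * K) - 1 / (600 * K) with hη'
    have a1 : (k : ℝ) ≤ η / 2 * L := by
      have b1 : L = L ^ (99 / 100 : ℝ) * L ^ (1 / 100 : ℝ) := by
        rw [← Real.rpow_add hL0]; norm_num
      have b2 : 1 ≤ η / 2 * L ^ (99 / 100 : ℝ) := by
        rw [div_le_iff₀ (by positivity)] at w3
        linarith
      have b3 : 0 ≤ L ^ (1 / 100 : ℝ) := by positivity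
      calc (k : ℝ) ≤ 1 * L ^ (1 / 100 : ℝ) := by rw [one_mul]; exact hk
        _ ≤ (η / 2 * L ^ (99 / 100 : ℝ)) * L ^ (1 / 100 : ℝ) := mul_le_mul_of_nonneg_right b2 b3
        _ = η / 2 * L := by rw [mul_assoc, ← b1]
    have a2 : (2 : ℝ) ^ k ≤ (N : ℝ) ^ (η / 2) := by
      have b1 : (N : ℝ) ^ (η / 2) = Real.exp (η / 2 * L) := by
        rw [Real.rpow_def_of_pos hNR, mul_comm]
      rw [b1]
      calc (2 : ℝ) ^ k ≤ Real.exp 1 ^ k :=
            pow_le_pow_left₀ (by norm_num) (by have := Real.exp_one_gt_d9; linarith) k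
        _ = Real.exp k := by rw [← Real.exp_nat_mul, mul_one]
        _ ≤ _ := Real.exp_le_exp.2 a1
    have a3 : (N : ℝ) ^ η = (N : ℝ) ^ (η / 2) * (N : ℝ) ^ (η / 2) := by
      rw [← Real.rpow_add hNR]; congr 1; ring
    rw [a3]
    calc (2 * 2 ^ k) * L ^ B = 2 ^ k * (2 * L ^ B) := by ring
      _ ≤ _ := mul_le_mul a2 w1₀ (by positivity) (by positivity)
  set b : ℝ := (2 * L ^ B) * (N : ℝ) ^ ((k : ℝ) - 1 / (500 * K)) with hb
  have hb0 : 0 ≤ b := by positivity
  have h1 := box_count (k := k) g3 (a := a) (M := M) hM (E := E) (fun A hA => (hE A hA).1) hb0 (by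
    intro a' E' hE' hcube
    set Qs := (range (⌊L ^ B⌋₊ + 1)).filter (fun q => q.Prime) with hQs
    have hcov : E' ⊆ Qs.biUnion (fun q => E'.filter (fun A => A ∈ Exc k q (L ^ (19 / 20 : ℝ)))) := by
      intro A hA
      obtain ⟨-, n, q, hq, hqn, hqB, hex⟩ := hE A (hE' hA)
      rw [mem_biUnion]
      refine ⟨q, ?_, ?_⟩
      · rw [hQs, mem_filter, mem_range]
        refine ⟨?_, hq⟩
        have := Nat.le_floor hqB
        omega
      · rw [mem_filter]
        exact ⟨hA, Exc_mono_exp hqn hex⟩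
    calc (E'.card : ℝ) ≤ ((Qs.biUnion (fun q => E'.filter (fun A => A ∈ Exc k q (L ^ (19 / 20 : ℝ))))).card : ℝ) := by
          exact_mod_cast card_le_card hcov
      _ ≤ ∑ q ∈ Qs, ((E'.filter (fun A => A ∈ Exc k q (L ^ (19 / 20 : ℝ)))).card : ℝ) := by
          exact_mod_cast card_biUnion_le
      _ ≤ ∑ q ∈ Qs, (N : ℝ) ^ ((k : ℝ) - 1 / (500 * K)) := by
          apply sum_le_sum
          intro q hq
          rw [hQs, mem_filter, mem_range] at hq
          apply hN₁ N g1 k hk q hq.2 _ a'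
          · intro A hA
            rw [mem_filter] at hA
            exact ⟨hcube A hA.1, hA.2⟩
          · have h2 : q ≤ ⌊L ^ B⌋₊ := by omega
            exact (Nat.le_floor_iff (by positivity)).1 h2
      _ = Qs.card * (N : ℝ) ^ ((k : ℝ) - 1 / (500 * K)) := by rw [sum_const, nsmul_eq_mul]
      _ ≤ b := by
          rw [hb]
          apply mul_le_mul_of_nonneg_right _ (by positivity)
          have h2 : (Qs.card : ℝ) ≤ ⌊L ^ B⌋₊ + 1 := by
            have : Qs.card ≤ ⌊L ^ B⌋₊ + 1 := by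
              rw [hQs]
              exact (card_filter_le _ _).trans (by rw [card_range])
            exact_mod_cast this
          have h3 : (⌊L ^ B⌋₊ : ℝ) ≤ L ^ B := Nat.floor_le (by positivity)
          linarith)
  refine h1.trans ?_
  have hP0 : (0 : ℝ) ≤ ∏ i, (M i : ℝ) := prod_nonneg fun i _ => Nat.cast_nonneg _
  have e1 : b * (2 ^ k * (∏ i, (M i : ℝ)) / (N : ℝ) ^ k) =
      ((2 * 2 ^ k) * L ^ B) * (N : ℝ) ^ (-(1 / (500 * K)) : ℝ) * ∏ i, (M i : ℝ) := by
    have e2 : (N : ℝ) ^ ((k : ℝ) - 1 / (500 * K)) = (N : ℝ) ^ k * (N : ℝ) ^ (-(1 / (500 * K)) : ℝ) := by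
      rw [sub_eq_add_neg, Real.rpow_add hNR, Real.rpow_natCast]
    rw [hb, e2]
    have : (N : ℝ) ^ k ≠ 0 := by positivity
    field_simp
  rw [e1]
  apply mul_le_mul_of_nonneg_right _ hP0
  calc ((2 * 2 ^ k) * L ^ B) * (N : ℝ) ^ (-(1 / (500 * K)) : ℝ) ≤
      (N : ℝ) ^ (1 / (500 * K) - 1 / (600 * K) : ℝ) * (N : ℝ) ^ (-(1 / (500 * K)) : ℝ) := by
        apply mul_le_mul_of_nonneg_right w1 (by positivity)
    _ = (N : ℝ) ^ (-(1 / (600 * K)) : ℝ) := by
        rw [← Real.rpow_add hNR]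
        congr 1; ring


end Pool.Agent.Q16.RI
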